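import Mathlib

set_option autoImplicit false

namespace Pool.Agent.Results.MP_fa2b2f_an.Atom

open MeasureTheory Filter Topology Set Metric
open scoped ENNReal symmDiff

section
variable {X : Type} [MetricSpace X] [MeasurableSpace X] (m : Measure X)

/-- asymptotic slope -/
noncomputable def lipa (f : X → ℝ) (x : X) : ℝ≥0∞ := ⨅ (r : ℝ) (_ : 0 < r),
  sInf {K | ∀ y ∈ ball x r, ∀ z ∈ ball x r, edist (f y) (f z) ≤ K * edist y z}

/-- perimeter: total variation of the indicator on the whole space -/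
noncomputable def Per (E : Set X) : ℝ≥0∞ := ⨅ (f : ℕ → X → ℝ) (_ : ∀ n, LocallyLipschitz (f n))
  (_ : ∀ x, ∃ U ∈ 𝓝 x, Tendsto (fun n => ∫⁻ y in U, ‖f n y - E.indicator 1 y‖ₑ ∂m) atTop (𝓝 0)),
  liminf (fun n => ∫⁻ y, lipa (f n) y ∂m) atTop

/-- `E` minimizes `M_l` -/
def IsMin (Ω : Set X) (l : ℝ≥0∞) (E : Set X) : Prop := MeasurableSet E ∧ E ⊆ Ω ∧
  ∀ A, MeasurableSet A → A ⊆ Ω → Per m E + l * m (Ω \ E) ≤ Per m A + l * m (Ω \ A)

/-- `E` minimizes `M~_l` -/
def IsMin' (Ω : Set X) (l : ℝ≥0∞) (E : Set X) : Prop := MeasurableSet E ∧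
  ∀ A, MeasurableSet A → Per m E + l * m (Ω ∆ E) ≤ Per m A + l * m (Ω ∆ A)
end

noncomputable def μ : Measure ℝ :=
  Measure.dirac 0 + volume.withDensity fun x => ENNReal.ofReal |min x (1 - x)|

lemma ac : (volume : Measure ℝ) ≪ μ := by
  refine (withDensity_absolutelyContinuous' (f := fun x => ENNReal.ofReal |min x (1 - x)|)
    (by fun_prop) ?_).trans (Measure.AbsolutelyContinuous.rfl.add_right' _)
  filter_upwards [(toFinite ({0, 1} : Set ℝ)).countable.ae_notMem volume] with x hx
  simp only [mem_insert_iff, mem_singleton_iff, not_or] at hx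
  simp only [ne_eq, ENNReal.ofReal_eq_zero, not_le, abs_pos]
  rcases min_choice x (1 - x) with h | h <;> rw [h]
  exacts [hx.1, sub_ne_zero.2 (Ne.symm hx.2)]

instance : IsLocallyFiniteMeasure μ := by
  have := IsLocallyFiniteMeasure.withDensity_ofReal (μ := (volume : Measure ℝ))
    (f := fun x => |min x (1 - x)|) (by fun_prop)
  refine ⟨fun x => ?_⟩
  obtain ⟨s, hs, h⟩ := this.1 x
  exact ⟨s, hs, ENNReal.add_lt_top.2 ⟨measure_lt_top _ _, h⟩⟩

lemma per : Per μ (Ioo 0 1) = 0 := by
  let f := fun (n : ℕ) (x : ℝ) => max 0 (min 1 ((n + 1) * min x (1 - x) - 1))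
  have hg : LipschitzWith 1 fun x : ℝ => min x (1 - x) := by
    simpa using LipschitzWith.id.min (LipschitzWith.of_dist_le_mul (K := 1)
      (f := fun x : ℝ => 1 - x) fun x y => by rw [dist_sub_left]; simp)
  have hf : ∀ n : ℕ, LipschitzWith (n + 1) (f n) := fun n =>
    ((LipschitzWith.of_dist_le_mul fun x y => by
      rw [dist_sub_right, Real.dist_eq, ← mul_sub, abs_mul, abs_of_nonneg (by positivity)]
      push_cast
      gcongr
      simpa [Real.dist_eq] using hg.dist_le_mul x y).const_min 1).const_max 0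
  refine le_antisymm (iInf_le_of_le f (iInf_le_of_le (fun n => (hf n).locallyLipschitz)
    (iInf_le_of_le (fun x => ⟨univ, univ_mem, ?_⟩) (Tendsto.liminf_eq ?_).le))) bot_le
  · have := tendsto_lintegral_of_dominated_convergence (μ := μ) (f := fun _ => 0)
      (F := fun n y => ‖f n y - (Ioo (0 : ℝ) 1).indicator 1 y‖ₑ) ((Ioo (0 : ℝ) 1).indicator 1)
      (fun n => ((hf n).continuous.measurable.sub
        (measurable_one.indicator measurableSet_Ioo)).enorm) (fun n => .of_forall fun y => ?_)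
      (by simpa using measure_Ioo_lt_top.ne) (.of_forall fun y => ?_)
    · simpa using this
    all_goals by_cases h : y ∈ Ioo (0 : ℝ) 1
    · simp only [indicator_of_mem h, Pi.one_apply, ← ofReal_norm_eq_enorm, ENNReal.ofReal_le_one,
        Real.norm_eq_abs, abs_le, f]
      exact ⟨by linarith [le_max_left 0 (min 1 ((n + 1 : ℝ) * min y (1 - y) - 1))],
        by simp [(min_le_left _ _).trans]⟩
    rotate_left
    · refine tendsto_const_nhds.congr' ?_
      have : 0 < min y (1 - y) := lt_min h.1 (sub_pos.2 h.2)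
      filter_upwards [(tendsto_natCast_atTop_atTop.atTop_mul_const this).eventually_ge_atTop 2]
        with n hn
      simp only [f, indicator_of_mem h]
      rw [min_eq_left (by linarith)]; simp
    all_goals
      have : ∀ n, f n y = 0 := fun n => max_eq_left (min_le_of_right_le (by
        have : min y (1 - y) ≤ 0 := by
          rw [mem_Ioo, not_and_or] at h
          exact min_le_iff.2 (h.imp not_lt.1 fun h => by linarith [not_lt.1 h])
        nlinarith [(n.cast_nonneg : (0 : ℝ) ≤ n)]))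
      simp [this, h]
  have h1 : ∀ (n : ℕ) x, lipa (f n) x ≤ {x | 1 ≤ (n + 1 : ℝ) * min x (1 - x) ∧
      (n + 1 : ℝ) * min x (1 - x) ≤ 2}.indicator (fun _ => ENNReal.ofReal (n + 1)) x := fun n x => by
    by_cases h : 1 ≤ (n + 1 : ℝ) * min x (1 - x) ∧ (n + 1 : ℝ) * min x (1 - x) ≤ 2
    · rw [indicator_of_mem (by exact h)]
      refine iInf₂_le_of_le 1 one_pos (sInf_le fun y _ z _ => (hf n y z).trans_eq ?_)
      rw [ENNReal.ofReal_add (by positivity) zero_le_one]; simp
    rw [indicator_of_notMem (by exact h)]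
    have : ∃ c, ∀ᶠ y in 𝓝 x, f n y = c := by
      have hc : ContinuousAt (fun y : ℝ => (n + 1 : ℝ) * min y (1 - y)) x := by fun_prop
      rcases not_and_or.1 h with h | h
      · exact ⟨0, (hc.eventually_lt continuousAt_const (not_le.1 h)).mono fun y hy =>
          max_eq_left (min_le_of_right_le (by linarith))⟩
      · exact ⟨1, (continuousAt_const.eventually_lt hc (not_le.1 h)).mono fun y hy => by
          simp only [f]; rw [min_eq_left (by linarith)]; simp⟩
    obtain ⟨c, hc⟩ := this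
    obtain ⟨r, hr, hc⟩ := Metric.eventually_nhds_iff_ball.1 hc
    exact iInf₂_le_of_le r hr (sInf_le fun y hy z hz => by simp [hc y hy, hc z hz])
  refine tendsto_of_tendsto_of_tendsto_of_le_of_le (h := fun n : ℕ => ENNReal.ofReal (8 / (n + 1)))
    tendsto_const_nhds ?_ (fun _ => bot_le) fun n => (lintegral_mono (h1 n)).trans ?_
  · simpa using ENNReal.tendsto_ofReal (tendsto_const_nhds.div_atTop (a := 8)
      (tendsto_natCast_atTop_atTop.atTop_add (tendsto_const_nhds (x := (1 : ℝ)))))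
  have hm : MeasurableSet {x : ℝ | 1 ≤ (n + 1 : ℝ) * min x (1 - x) ∧
      (n + 1 : ℝ) * min x (1 - x) ≤ 2} := by measurability
  have n0 : (0 : ℝ) < n + 1 := by positivity
  rw [lintegral_indicator_const hm, μ, Measure.add_apply, Measure.dirac_apply' _ hm,
    indicator_of_notMem (by simp), zero_add, withDensity_apply _ hm]
  refine (mul_le_mul_right ((setLIntegral_mono' (g := fun _ => ENNReal.ofReal (2 / (n + 1))) hm
    fun x hx => ENNReal.ofReal_le_ofReal ?_).trans ((setLIntegral_const _ _).trans_le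
    (mul_le_mul_right ((measure_mono (t := Icc (0 : ℝ) (2 / (n + 1)) ∪ Icc (1 - 2 / (n + 1)) 1)
      fun x hx => ?_).trans (measure_union_le _ _)) _))) _).trans ?_
  · rw [abs_of_pos ((mul_pos_iff_of_pos_left n0).1 (one_pos.trans_le hx.1)), le_div_iff₀' n0]
    exact hx.2
  · have a := lt_min_iff.1 ((mul_pos_iff_of_pos_left n0).1 (one_pos.trans_le hx.1))
    exact (min_le_iff.1 ((le_div_iff₀' n0).2 hx.2)).imp (fun h => ⟨a.1.le, h⟩)
      fun h => ⟨by linarith, by linarith [a.2]⟩
  · rw [Real.volume_Icc, Real.volume_Icc, ← ENNReal.ofReal_add (by rw [sub_zero]; positivity)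
      (by rw [sub_sub_cancel]; positivity), ← ENNReal.ofReal_mul (by positivity),
      ← ENNReal.ofReal_mul n0.le]
    exact ENNReal.ofReal_le_ofReal (le_of_eq (by field_simp; ring))

/-- On the line with a fully supported measure, a minimizer without closed representative. -/
theorem result : ∃ (m : Measure ℝ) (Ω : Set ℝ), (∀ B, Bornology.IsBounded B → m B < ∞) ∧
    m.IsOpenPosMeasure ∧ IsOpen Ω ∧ IsConnected Ω ∧ Bornology.IsBounded Ω ∧ ∀ l : ℝ≥0∞,
      ∃ E, IsMin m Ω l E ∧ IsMin' m Ω l E ∧ ¬ ∃ C, IsClosed C ∧ m (E ∆ C) = 0 := by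
  have := ac.isOpenPosMeasure
  refine ⟨μ, Ioo 0 1, fun B hB => hB.measure_lt_top, this, isOpen_Ioo, isConnected_Ioo one_pos,
    isBounded_Ioo 0 1, fun l => ⟨Ioo 0 1, ⟨measurableSet_Ioo, subset_rfl, by simp [per]⟩,
    ⟨measurableSet_Ioo, by simp [per]⟩, fun ⟨C, hC, h⟩ => ?_⟩⟩
  have h1 : Ioo 0 1 ⊆ C := diff_eq_empty.1 (((isOpen_Ioo.sdiff hC).measure_eq_zero_iff μ).1
    (measure_mono_null subset_union_left h))
  have h2 : (0 : ℝ) ∈ C := closure_minimal h1 hC (by simp)
  have h3 : (0 : ℝ) ∈ Ioo 0 1 ∆ C := Or.inr ⟨h2, by simp⟩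
  have := measure_mono_null (singleton_subset_iff.2 h3) h
  simp [μ] at this

end Pool.Agent.Results.MP_fa2b2f_an.Atom
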